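import Pool.Agent.Helper99.MKV.GoalsC
import Pool.Agent.Helper45.EXC.NEA

/-!
# MKV, packet DRF: drift of the corrected charge
-/

open Finset hiding box

namespace Pool.Agent.Helper93.MKV

open Pool.Agent.Helper99.MKV Pool.Agent.Helper99.EXC Pool.Agent.Helper99.ERW
open Pool.Agent.Helper45.EXC

section

variable {E ι : Type*} [Fintype ι]

lemma abs_av_le {U : Sys E ι} (hU : U.Ok) (z : Site 2) {G : E → ℝ} {c : ℝ}
    (h : ∀ e', |G e'| ≤ c) (e : E) : |av U z G e| ≤ c := by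
  unfold av
  refine (Finset.abs_sum_le_sum_abs _ _).trans ?_
  have h1 : ∀ i, |U.wt z e i * G (U.nx z e i)| ≤ U.wt z e i * c := by
    intro i
    rw [abs_mul, abs_of_nonneg (hU.wt0 z e i)]
    exact mul_le_mul_of_nonneg_left (h _) (hU.wt0 z e i)
  refine (Finset.sum_le_sum fun i _ => h1 i).trans ?_
  rw [← Finset.sum_mul, hU.wt1, one_mul]

lemma abs_cv_le {U : Sys E ι} (hU : U.Ok) {B : ℝ} {S : Site 2 → E → ℝ}
    (hS : ∀ z e, |S z e| ≤ B) (z : Site 2) (e : E) : |cv U S S z e| ≤ 4 * B ^ 2 := by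
  unfold cv
  refine abs_av_le hU z (fun e' => ?_) e
  have h1 : |S z e' - S z e| ≤ 2 * B := by
    have h2 := abs_sub (S z e') (S z e)
    linarith [hS z e', hS z e]
  rw [abs_mul]
  have h3 := mul_le_mul h1 h1 (abs_nonneg _) ((abs_nonneg _).trans h1)
  calc |S z e' - S z e| * |S z e' - S z e| ≤ 2 * B * (2 * B) := h3
    _ = 4 * B ^ 2 := by ring

lemma abs_dd_le {U : Sys E ι} {a B : ℝ} {S : Site 2 → E → ℝ} (hd : Dat U a B S) (t : MSt E) :
    |dd U a t| ≤ 1 := by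
  unfold Pool.Agent.Helper99.MKV.dd
  have h0 := hd.ok.f0 t.1 (t.2 t.1)
  have h1 := hd.ok.f1 t.1 (t.2 t.1)
  have ha0 := hd.a0
  have ha1 := hd.a1
  rw [abs_le]
  constructor <;> linarith

end

lemma not_mem_sub {b j k : ℕ} (hjk : j ≤ k) {x z : Site 2} (hx : x ∉ Bx b (k + 1))
    (hz : z ∈ Bx b k) : x - z ∉ Bx b j := by
  intro hc
  apply hx
  have hc' := Bx_mono b hjk hc
  unfold Bx at hc' hz ⊢
  rw [mem_box] at hc' hz ⊢
  intro l
  have a1 := hc' l
  have a2 := hz l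
  have a3 : |x l| ≤ |(x - z) l| + |z l| := by
    have : x l = (x - z) l + z l := by simp
    calc |x l| = |(x - z) l + z l| := by rw [← this]
      _ ≤ _ := abs_add_le _ _
  have a4 : ((b * 2 ^ (k + 1) : ℕ) : ℤ) = 2 * ((b * 2 ^ k : ℕ) : ℤ) := by
    push_cast
    ring
  omega

lemma hdout {a : ℝ} {φ : Site 2 → ℝ} {Φ : ℕ → Site 2 → ℝ} {κ C : ℝ} {b k1 j : ℕ}
    (hs : Scx a φ Φ κ C b k1) (hj : k1 ≤ j) {u : Site 2} (hu : u ∉ Bx b j) :
    Hj φ (Φ j) u = 0 := by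
  unfold Hj
  rw [hs.dout j hj u hu, sub_self]

lemma hjbd {a : ℝ} {φ : Site 2 → ℝ} {Φ : ℕ → Site 2 → ℝ} {κ C : ℝ} {b k1 j : ℕ}
    (hs : Scx a φ Φ κ C b k1) (hj : k1 ≤ j) (u : Site 2) :
    |Hj φ (Φ j) u| ≤ 2 * C / (1 + nm u) ^ 2 := by
  unfold Hj
  have h1 := hs.hbd u
  have h2 := hs.dphi2 j hj u
  have h3 := abs_sub (Df φ u) (Df (Φ j) u)
  have h4 : 2 * C / (1 + nm u) ^ 2 = C / (1 + nm u) ^ 2 + C / (1 + nm u) ^ 2 := by ring
  rw [h4]
  linarith

lemma hjeven {a : ℝ} {φ : Site 2 → ℝ} {Φ : ℕ → Site 2 → ℝ} {κ C : ℝ} {b k1 j : ℕ}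
    (hs : Scx a φ Φ κ C b k1) (u : Site 2) : Hj φ (Φ j) (-u) = Hj φ (Φ j) u := by
  unfold Hj
  rw [Df_even hs.even, Df_even (hs.evk j)]

/-- the drift in the exact form -/
lemma drift_exact (hDRG : DRG_stmt) {E ι : Type} [Fintype ι] {U : Sys E ι} {a B : ℝ}
    {S : Site 2 → E → ℝ} (hd : Dat U a B S) {φ : Site 2 → ℝ} {Φ : ℕ → Site 2 → ℝ} {κ C : ℝ}
    {b k1 : ℕ} (hs : Scx a φ Φ κ C b k1) (j k : ℕ) {v : Site 2 → ℝ}
    (hv0 : ∀ x, x ∉ Bx b k → v x = 0) (t : MSt E) :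
    Dr U (Yv κ φ Φ S b j k v) t - Dv U a φ Φ S b j k v t =
      Df φ 0 / 2 * v t.1 * cv U S S t.1 (t.2 t.1) -
      v t.1 * dd U a t * (La a (Φ k) t.1 + dd U a t * Df (Φ k) t.1) +
      dd U a t * (∑ z ∈ Bx b k, v z * S z (t.2 z) * Hj φ (Φ j) (t.1 - z)) -
      (if t.1 ∈ Bx b (k + 1) then
        dd U a t * (∑ z ∈ Bx b (k + 1), (v t.1 + v z) / 2 * Hj φ (Φ j) (t.1 - z) * S z (t.2 z)) +
          1 / 2 * (v t.1 * Hj φ (Φ j) 0) * cv U S S t.1 (t.2 t.1) else 0) := by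
  obtain ⟨g1, g2, g3⟩ := hDRG E ι U hd.ok t
  have hps : av U t.1 (S t.1) (t.2 t.1) - S t.1 (t.2 t.1) = dd U a t := by
    rw [hd.ps]
    rfl
  -- first charge
  have e1 : Dr U (VV S (Bx b k) v) t = v t.1 * dd U a t := by
    rw [g1, hps]
    split_ifs with hx
    · rfl
    · rw [hv0 _ hx, zero_mul]
  have e4 : Dr U (VV S (Bx b k) (fun x => v x * (κ * k - Φ k x))) t =
      v t.1 * (κ * k - Φ k t.1) * dd U a t := by
    rw [g1, hps]
    split_ifs with hx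
    · rfl
    · rw [hv0 _ hx, zero_mul, zero_mul]
  have e2 : Dr U (ZZ φ (Φ k) S (Bx b k) v) t =
      v t.1 * S t.1 (t.2 t.1) - La a (Φ k) t.1 * VV S (Bx b k) v t +
      dd U a t * (∑ z ∈ Bx b k, v z * S z (t.2 z) * (Df φ (t.1 - z) - Df (Φ k) t.1)) +
      v t.1 * dd U a t * (φ 0 - Φ k t.1 + (1 - La a (Φ k) t.1) +
        dd U a t * (Df φ 0 - Df (Φ k) t.1)) := by
    rw [g2 a φ (Φ k) hs.lap, hps]
    split_ifs with hx
    · rfl
    · rw [hv0 _ hx, zero_mul, zero_mul, zero_mul]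
  have e3 : Dr U (QQ (Hj φ (Φ j)) S (Bx b (k + 1)) v) t =
      if t.1 ∈ Bx b (k + 1) then
        dd U a t * (∑ z ∈ Bx b (k + 1), (v t.1 + v z) / 2 * Hj φ (Φ j) (t.1 - z) * S z (t.2 z)) +
          1 / 2 * (v t.1 * Hj φ (Φ j) 0) * cv U S S t.1 (t.2 t.1) else 0 := by
    have hq : QQ (Hj φ (Φ j)) S (Bx b (k + 1)) v = fun s : MSt E =>
        1 / 2 * BL S S (Bx b (k + 1)) (Bx b (k + 1))
          (fun y z => (v y + v z) / 2 * Hj φ (Φ j) (y - z)) s := rfl
    rw [hq, Dr_smul, g3, hps]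
    have hsym : ∑ y ∈ Bx b (k + 1), (v y + v t.1) / 2 * Hj φ (Φ j) (y - t.1) * S y (t.2 y) =
        ∑ z ∈ Bx b (k + 1), (v t.1 + v z) / 2 * Hj φ (Φ j) (t.1 - z) * S z (t.2 z) := by
      refine Finset.sum_congr rfl fun y _ => ?_
      have : t.1 - y = -(y - t.1) := by abel
      rw [this, hjeven hs, add_comm (v y)]
    simp only [hsym, sub_self, and_self]
    split_ifs with hx
    · ring
    · ring
  have hY : Yv κ φ Φ S b j k v = fun s : MSt E =>
      ((κ * k * VV S (Bx b k) v s + ZZ φ (Φ k) S (Bx b k) v s) -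
        QQ (Hj φ (Φ j)) S (Bx b (k + 1)) v s) -
        VV S (Bx b k) (fun x => v x * (κ * k - Φ k x)) s := rfl
  rw [hY, Dr_sub (fun s : MSt E => (κ * k * VV S (Bx b k) v s + ZZ φ (Φ k) S (Bx b k) v s) -
        QQ (Hj φ (Φ j)) S (Bx b (k + 1)) v s),
    Dr_sub (fun s : MSt E => κ * k * VV S (Bx b k) v s + ZZ φ (Φ k) S (Bx b k) v s),
    Dr_add (fun s : MSt E => κ * k * VV S (Bx b k) v s), Dr_smul]
  rw [e1, e2, e3, e4]
  unfold Dv Th fv
  have hz0 := hs.zero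
  have hfd : U.f t.1 (t.2 t.1) - a = dd U a t := rfl
  rw [hfd]
  have hsplit : ∑ z ∈ Bx b k, v z * S z (t.2 z) * (Df φ (t.1 - z) - Df (Φ k) t.1) =
      ∑ z ∈ Bx b k, v z * S z (t.2 z) * (Df (Φ j) (t.1 - z) - Df (Φ k) t.1) +
      ∑ z ∈ Bx b k, v z * S z (t.2 z) * Hj φ (Φ j) (t.1 - z) := by
    rw [← Finset.sum_add_distrib]
    refine Finset.sum_congr rfl fun z _ => ?_
    unfold Hj
    ring
  rw [hsplit, hz0]
  have hav : av U t.1 (S t.1) (t.2 t.1) = S t.1 (t.2 t.1) + dd U a t := by linarith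
  rw [hav]
  ring

/-- **DRF.** -/
theorem DRF (hSMS : SMS_stmt) (hDRG : DRG_stmt) : DRF_stmt := by
  intro κ C b B hκ hC hb hB
  obtain ⟨C4, hC4, -, -, hS3, -⟩ := hSMS b hb
  refine ⟨2 * C + 2 * B ^ 2 * C + B * C * C4, by positivity, ?_⟩
  intro E ι _ U a S φ Φ k1 hd hs j k hj hjk A v hv t
  obtain ⟨hA, hv0, hvb, hvl⟩ := hv
  have hex := drift_exact hDRG hd hs j k hv0 t
  have hk : k1 ≤ k := hj.trans hjk
  have hC0 : 0 ≤ C := by linarith
  have hB0 : 0 ≤ B := by linarith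
  refine ⟨fun hx => ?_, fun hx => ?_⟩
  · rw [if_pos hx] at hex
    set D := Bx b (k + 1) with hD
    have hsum : ∑ z ∈ Bx b k, v z * S z (t.2 z) * Hj φ (Φ j) (t.1 - z) =
        ∑ z ∈ D, v z * S z (t.2 z) * Hj φ (Φ j) (t.1 - z) := by
      refine Finset.sum_subset (Bx_mono b (Nat.le_succ k)) fun z _ hz => ?_
      rw [hv0 z hz, zero_mul, zero_mul]
    rw [hsum] at hex
    have hcomb : ∑ z ∈ D, v z * S z (t.2 z) * Hj φ (Φ j) (t.1 - z) -
        ∑ z ∈ D, (v t.1 + v z) / 2 * Hj φ (Φ j) (t.1 - z) * S z (t.2 z) =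
        -∑ z ∈ D, (v t.1 - v z) / 2 * Hj φ (Φ j) (t.1 - z) * S z (t.2 z) := by
      rw [← Finset.sum_sub_distrib, ← Finset.sum_neg_distrib]
      refine Finset.sum_congr rfl fun z _ => ?_
      ring
    have hH0 : Hj φ (Φ j) 0 = Df φ 0 - Df (Φ j) 0 := rfl
    have hfin : Dr U (Yv κ φ Φ S b j k v) t - Dv U a φ Φ S b j k v t =
        1 / 2 * v t.1 * cv U S S t.1 (t.2 t.1) * Df (Φ j) 0 -
        v t.1 * dd U a t * (La a (Φ k) t.1 + dd U a t * Df (Φ k) t.1) -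
        dd U a t * ∑ z ∈ D, (v t.1 - v z) / 2 * Hj φ (Φ j) (t.1 - z) * S z (t.2 z) := by
      rw [hex, hH0]
      have h1 : dd U a t * (∑ z ∈ D, v z * S z (t.2 z) * Hj φ (Φ j) (t.1 - z)) -
          dd U a t * (∑ z ∈ D, (v t.1 + v z) / 2 * Hj φ (Φ j) (t.1 - z) * S z (t.2 z)) =
          -(dd U a t * ∑ z ∈ D, (v t.1 - v z) / 2 * Hj φ (Φ j) (t.1 - z) * S z (t.2 z)) := by
        rw [← mul_sub, hcomb]
        ring
      linear_combination h1
    -- bounds
    have p4 : (0 : ℝ) < 4 ^ k := by positivity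
    have p4j : (0 : ℝ) < 4 ^ j := by positivity
    have hjk4 : (1 : ℝ) / 4 ^ k ≤ 1 / 4 ^ j :=
      one_div_le_one_div_of_le p4j (pow_le_pow_right₀ (by norm_num) hjk)
    have hdd := abs_dd_le hd t
    have hcv := abs_cv_le hd.ok hd.bd t.1 (t.2 t.1)
    have hmu0 := hs.mu0 k hk t.1
    have hmu1 := hs.mu1 k hk t.1
    have hdf := hs.dphi1 k hk t.1
    have hdj := hs.dphi1 j hj 0
    have hvx := hvb t.1
    have b1 : |1 / 2 * v t.1 * cv U S S t.1 (t.2 t.1) * Df (Φ j) 0| ≤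
        2 * B ^ 2 * C * A * (1 / 4 ^ j) / 4 ^ k := by
      rw [abs_mul, abs_mul, abs_mul, abs_of_pos (by norm_num : (0 : ℝ) < 1 / 2)]
      have h1 : 1 / 2 * |v t.1| * |cv U S S t.1 (t.2 t.1)| ≤ 1 / 2 * (A / 4 ^ k) * (4 * B ^ 2) :=
        mul_le_mul (mul_le_mul_of_nonneg_left hvx (by norm_num)) hcv (abs_nonneg _)
          (by positivity)
      have h2 := mul_le_mul h1 hdj (abs_nonneg _) (by positivity)
      refine h2.trans (le_of_eq ?_)
      field_simp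
      ring
    have b2 : |v t.1 * dd U a t * (La a (Φ k) t.1 + dd U a t * Df (Φ k) t.1)| ≤
        2 * C * A * (1 / 4 ^ j) / 4 ^ k := by
      rw [abs_mul, abs_mul]
      have h1 : |v t.1| * |dd U a t| ≤ A / 4 ^ k * 1 :=
        mul_le_mul hvx hdd (abs_nonneg _) (by positivity)
      have h2 : |La a (Φ k) t.1 + dd U a t * Df (Φ k) t.1| ≤ 2 * C * (1 / 4 ^ j) := by
        have h3 : |dd U a t * Df (Φ k) t.1| ≤ 1 * (C / 4 ^ k) := by
          rw [abs_mul]
          exact mul_le_mul hdd hdf (abs_nonneg _) (by norm_num)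
        have h4 : |La a (Φ k) t.1| ≤ C / 4 ^ k := by
          rw [abs_of_nonneg hmu0]
          exact hmu1
        have h5 := abs_add_le (La a (Φ k) t.1) (dd U a t * Df (Φ k) t.1)
        have h6 : C / 4 ^ k ≤ C * (1 / 4 ^ j) := by
          rw [div_eq_mul_one_div]
          exact mul_le_mul_of_nonneg_left hjk4 hC0
        linarith
      have h3 := mul_le_mul h1 h2 (abs_nonneg _) (by positivity)
      refine h3.trans (le_of_eq ?_)
      field_simp
    have b3 : |dd U a t * ∑ z ∈ D, (v t.1 - v z) / 2 * Hj φ (Φ j) (t.1 - z) * S z (t.2 z)| ≤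
        B * C * C4 * A * (2 ^ j / 2 ^ k) / 4 ^ k := by
      rw [abs_mul]
      have h1 : |∑ z ∈ D, (v t.1 - v z) / 2 * Hj φ (Φ j) (t.1 - z) * S z (t.2 z)| ≤
          ∑ z ∈ D.filter (fun z => t.1 - z ∈ Bx b j),
            B * C * (A / 8 ^ k) * (1 / (1 + nm (t.1 - z))) := by
        refine (Finset.abs_sum_le_sum_abs _ _).trans ?_
        rw [Finset.sum_filter]
        refine Finset.sum_le_sum fun z _ => ?_
        split_ifs with hz
        · set u := t.1 - z with hu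
          have hn := nm_nonneg u
          have q1 : |v t.1 - v z| ≤ A / 8 ^ k * nm u := hvl t.1 z
          have q2 := hjbd hs hj u
          have q3 := hd.bd z (t.2 z)
          rw [abs_mul, abs_mul, abs_div, abs_of_pos (by norm_num : (0 : ℝ) < 2)]
          have q4 : |v t.1 - v z| / 2 * |Hj φ (Φ j) u| ≤
              A / 8 ^ k * nm u / 2 * (2 * C / (1 + nm u) ^ 2) :=
            mul_le_mul (by linarith) q2 (abs_nonneg _) (by positivity)
          have q5 := mul_le_mul q4 q3 (abs_nonneg _) (by positivity)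
          refine q5.trans ?_
          have hp : 0 < 1 + nm u := by linarith
          have q6 : A / 8 ^ k * nm u / 2 * (2 * C / (1 + nm u) ^ 2) * B =
              B * C * (A / 8 ^ k) * (1 / (1 + nm u)) * (nm u / (1 + nm u)) := by
            field_simp
          rw [q6]
          have q7 : nm u / (1 + nm u) ≤ 1 := by
            rw [div_le_one hp]
            linarith
          exact mul_le_of_le_one_right (by positivity) q7
        · rw [hdout hs hj hz]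
          simp
      have h2 : ∑ z ∈ D.filter (fun z => t.1 - z ∈ Bx b j), 1 / (1 + nm (t.1 - z)) ≤
          C4 * 2 ^ j := by
        have h3 : ∑ z ∈ D.filter (fun z => t.1 - z ∈ Bx b j), 1 / (1 + nm (t.1 - z)) =
            ∑ u ∈ (D.filter (fun z => t.1 - z ∈ Bx b j)).image (fun z => t.1 - z),
              1 / (1 + nm u) := by
          rw [Finset.sum_image]
          intro a _ b _ hab
          simpa using hab
        rw [h3]
        refine (Finset.sum_le_sum_of_subset_of_nonneg (t := Bx b j) ?_ fun u _ _ => ?_).trans ?_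
        · intro u hu
          rw [Finset.mem_image] at hu
          obtain ⟨z, hz, rfl⟩ := hu
          exact (Finset.mem_filter.1 hz).2
        · have := nm_nonneg u
          positivity
        · have := hS3 j 0
          simpa using this
      rw [← Finset.mul_sum] at h1
      have h4 : |∑ z ∈ D, (v t.1 - v z) / 2 * Hj φ (Φ j) (t.1 - z) * S z (t.2 z)| ≤
          B * C * (A / 8 ^ k) * (C4 * 2 ^ j) :=
        h1.trans (mul_le_mul_of_nonneg_left h2 (by positivity))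
      have h5 := mul_le_mul hdd h4 (abs_nonneg _) (by norm_num)
      refine h5.trans (le_of_eq ?_)
      have h8 : (8 : ℝ) ^ k = 2 ^ k * 4 ^ k := by
        rw [← mul_pow]
        norm_num
      rw [h8]
      field_simp
    rw [hfin]
    have h7 := abs_sub (1 / 2 * v t.1 * cv U S S t.1 (t.2 t.1) * Df (Φ j) 0 -
        v t.1 * dd U a t * (La a (Φ k) t.1 + dd U a t * Df (Φ k) t.1))
        (dd U a t * ∑ z ∈ D, (v t.1 - v z) / 2 * Hj φ (Φ j) (t.1 - z) * S z (t.2 z))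
    have h8 := abs_sub (1 / 2 * v t.1 * cv U S S t.1 (t.2 t.1) * Df (Φ j) 0)
        (v t.1 * dd U a t * (La a (Φ k) t.1 + dd U a t * Df (Φ k) t.1))
    have h9 : (2 * C + 2 * B ^ 2 * C + B * C * C4) * A * (2 ^ j / 2 ^ k + 1 / 4 ^ j) / 4 ^ k =
        2 * C * A * (1 / 4 ^ j) / 4 ^ k + 2 * B ^ 2 * C * A * (1 / 4 ^ j) / 4 ^ k +
        B * C * C4 * A * (2 ^ j / 2 ^ k) / 4 ^ k +
        ((2 * C + 2 * B ^ 2 * C) * A * (2 ^ j / 2 ^ k) / 4 ^ k +
          B * C * C4 * A * (1 / 4 ^ j) / 4 ^ k) := by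
      ring
    have h10 : 0 ≤ (2 * C + 2 * B ^ 2 * C) * A * (2 ^ j / 2 ^ k) / 4 ^ k +
          B * C * C4 * A * (1 / 4 ^ j) / 4 ^ k := by positivity
    rw [h9]
    linarith
  · rw [if_neg hx] at hex
    have hxk : t.1 ∉ Bx b k := fun hc => hx (Bx_mono b (Nat.le_succ k) hc)
    have hv : v t.1 = 0 := hv0 _ hxk
    have hz : ∑ z ∈ Bx b k, v z * S z (t.2 z) * Hj φ (Φ j) (t.1 - z) = 0 := by
      refine Finset.sum_eq_zero fun z hz => ?_
      rw [hdout hs hj (not_mem_sub hjk hx hz), mul_zero]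
    rw [hv, hz] at hex
    simp only [mul_zero, zero_mul, add_zero, sub_self] at hex
    linarith

end Pool.Agent.Helper93.MKV
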